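import Pool.Agent.Y120.A.Defs
import Pool.Agent.Y120.K.Clr

/-!
# The product of the quadrics is irreducible (project of helper120, job A-IRR), by helper929
-/

set_option autoImplicit false

open Pool.Agent.Y118.UL Pool.Agent.Y120.K Pool.Agent.Y120.A

namespace Pool.Agent.Y929.A

/-- the coordinates: the last one is a fraction in the others -/
def ee (k : ℕ) (a : Fin k × Option (Fin 4)) : Fin k × Option (Fin 3) ⊕ Fin k :=
  match a with
  | (i, none) => Sum.inl (i, none)
  | (i, some 0) => Sum.inl (i, some 0)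
  | (i, some 1) => Sum.inl (i, some 1)
  | (i, some 2) => Sum.inl (i, some 2)
  | (i, some 3) => Sum.inr i

/-- the parametrisation -/
noncomputable def par {k : ℕ} (v : Fin k × Option (Fin 3) → ℂ) (a : Fin k × Option (Fin 4)) : ℂ :=
  Sum.elim v (fun i => (1 + v (i, some 2) * v (i, some 1)) / v (i, some 0)) (ee k a)

lemma par_mem {k : ℕ} (v : Fin k × Option (Fin 3) → ℂ) (hv : ∀ i, v (i, some 0) ≠ 0) : par v ∈ YJ k := by
  intro i
  refine ⟨hv i, ?_⟩
  show v (i, some 0) * ((1 + v (i, some 2) * v (i, some 1)) / v (i, some 0)) -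
    v (i, some 2) * v (i, some 1) = 1
  rw [mul_div_cancel₀ _ (hv i)]
  ring

lemma exists_par {k : ℕ} (y : Fin k × Option (Fin 4) → ℂ) (hy : y ∈ YJ k) :
    ∃ v : Fin k × Option (Fin 3) → ℂ, (∀ i, v (i, some 0) ≠ 0) ∧ par v = y := by
  refine ⟨fun a => y (a.1, a.2.map Fin.castSucc), fun i => (hy i).1, ?_⟩
  funext a
  obtain ⟨i, o⟩ := a
  have h1 : y (i, some 0) ≠ 0 := (hy i).1
  have h2 : y (i, some 0) * y (i, some 3) - y (i, some 2) * y (i, some 1) = 1 := (hy i).2
  rcases o with _ | j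
  · rfl
  · fin_cases j
    · rfl
    · rfl
    · rfl
    · show (1 + y (i, some 2) * y (i, some 1)) / y (i, some 0) = y (i, some 3)
      rw [div_eq_iff h1, ← h2]
      ring

/-- clearing the denominators -/
noncomputable def cl {k : ℕ} (P : MvPolynomial (Fin k × Option (Fin 4)) ℂ) : MvPolynomial (Fin k × Option (Fin 3)) ℂ :=
  clr (MvPolynomial.rename (ee k) P).totalDegree (fun a => MvPolynomial.X a)
    (fun i => 1 + MvPolynomial.X (i, some 2) * MvPolynomial.X (i, some 1)) (fun i => MvPolynomial.X (i, some 0))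
    (MvPolynomial.rename (ee k) P)

lemma cl_eval {k : ℕ} (P : MvPolynomial (Fin k × Option (Fin 4)) ℂ) (v : Fin k × Option (Fin 3) → ℂ)
    (hv : ∀ i, v (i, some 0) ≠ 0) : ∃ c : ℂ, c ≠ 0 ∧ MvPolynomial.eval v (cl P) = c * MvPolynomial.eval (par v) P := by
  have h := clr_eval (K := ℂ) (W := fun a => MvPolynomial.X a)
    (N := fun i : Fin k => 1 + MvPolynomial.X (i, some 2) * MvPolynomial.X (i, some 1))
    (M := fun i : Fin k => MvPolynomial.X (i, some 0)) (le_refl (MvPolynomial.rename (ee k) P).totalDegree) v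
    (fun i => by rw [MvPolynomial.aeval_X]; exact hv i)
  refine ⟨∏ b : Fin k, v (b, some 0) ^ (MvPolynomial.rename (ee k) P).totalDegree,
    Finset.prod_ne_zero_iff.2 fun i _ => pow_ne_zero _ (hv i), ?_⟩
  simp only [MvPolynomial.aeval_X] at h
  rw [← MvPolynomial.coe_aeval_eq_eval]
  refine h.trans ?_
  congr 1
  rw [MvPolynomial.aeval_rename, ← MvPolynomial.coe_aeval_eq_eval]
  refine congrArg (fun z => MvPolynomial.aeval z P) ?_
  funext a
  unfold par
  simp only [Function.comp_apply, MvPolynomial.aeval_X, map_add, map_mul, map_one]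

theorem t_irr : T_IRR := by
  intro k P Q h
  have h0 : (∏ i : Fin k, MvPolynomial.X (i, some 0) : MvPolynomial (Fin k × Option (Fin 3)) ℂ) ≠ 0 :=
    Finset.prod_ne_zero_iff.2 fun i _ => MvPolynomial.X_ne_zero _
  have h1 : cl P * cl Q * ∏ i : Fin k, MvPolynomial.X (i, some 0) = 0 := by
    refine MvPolynomial.funext fun v => ?_
    rw [map_zero, map_mul, map_mul, map_prod]
    simp only [MvPolynomial.eval_X]
    by_cases hv : ∀ i, v (i, some 0) ≠ 0
    · obtain ⟨c, -, hc⟩ := cl_eval P v hv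
      obtain ⟨d, -, hd⟩ := cl_eval Q v hv
      have h2 := h _ (par_mem v hv)
      rw [hc, hd, mul_mul_mul_comm, h2, mul_zero, zero_mul]
    · push Not at hv
      obtain ⟨i, hi⟩ := hv
      rw [Finset.prod_eq_zero (Finset.mem_univ i) hi, mul_zero]
  have key : ∀ P : MvPolynomial (Fin k × Option (Fin 4)) ℂ, cl P = 0 → ∀ y ∈ YJ k, MvPolynomial.eval y P = 0 := by
    intro P hP y hy
    obtain ⟨v, hv, rfl⟩ := exists_par y hy
    obtain ⟨c, hc0, hc⟩ := cl_eval P v hv
    rw [hP, map_zero] at hc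
    exact (mul_eq_zero.1 hc.symm).resolve_left hc0
  rcases mul_eq_zero.1 ((mul_eq_zero.1 h1).resolve_right h0) with h2 | h2
  · exact Or.inl (key P h2)
  · exact Or.inr (key Q h2)

end Pool.Agent.Y929.A
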